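import Pool.Agent.helper2.BB.Spec

/-!
# bb:C6: coefficients of the powers of the Koebe function
-/

namespace BB

open Metric MeasureTheory Set Filter Topology Asymptotics

theorem C6_cf (g : ℂ → ℂ) (c : ℕ → ℂ)
    (h : ∀ᶠ z : ℂ in 𝓝 0, HasSum (fun n => z ^ n • c n) (g z)) (m : ℕ) : cf m g = c m := by
  have h1 : HasFPowerSeriesAt g (FormalMultilinearSeries.ofScalars ℂ c) 0 := by
    rw [hasFPowerSeriesAt_iff]
    filter_upwards [h] with z hz
    simpa [FormalMultilinearSeries.coeff_ofScalars] using hz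
  have h2 := h1.analyticAt.hasFPowerSeriesAt
  have h3 := h1.eq_formalMultilinearSeries h2
  have h4 := congrArg (fun p : FormalMultilinearSeries ℂ ℂ ℂ => p.coeff m) h3
  simp only [FormalMultilinearSeries.coeff_ofScalars] at h4
  unfold cf
  exact h4.symm

theorem C6_pow (j m : ℕ) (hj : 1 ≤ j) :
    cf m (fun ζ => Kb ζ ^ j) = (Nat.choose (m + j - 1) (2 * j - 1) : ℂ) := by
  refine C6_cf _ (fun n => (Nat.choose (n + j - 1) (2 * j - 1) : ℂ)) ?_ m
  have hb : ∀ᶠ z : ℂ in 𝓝 0, ‖z‖ < 1 := by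
    filter_upwards [Metric.ball_mem_nhds (0 : ℂ) one_pos] with z hz
    simpa using hz
  filter_upwards [hb] with z hz
  have h1 := hasSum_choose_mul_geometric_of_norm_lt_one (2 * j - 1) hz
  have h2 := h1.mul_left (z ^ j)
  rw [← hasSum_nat_add_iff' j]
  have h3 : ∑ i ∈ Finset.range j, z ^ i • (Nat.choose (i + j - 1) (2 * j - 1) : ℂ) = 0 := by
    refine Finset.sum_eq_zero fun i hi => ?_
    rw [Nat.choose_eq_zero_of_lt (by have := Finset.mem_range.1 hi; omega)]
    simp
  rw [h3, sub_zero]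
  have h4 : Kb z ^ j = z ^ j * (1 / (1 - z) ^ (2 * j - 1 + 1)) := by
    unfold Kb
    rw [show 2 * j - 1 + 1 = 2 * j by omega, div_pow, ← pow_mul]
    ring
  rw [h4]
  refine h2.congr_fun ?_
  intro n
  rw [show n + j + j - 1 = n + (2 * j - 1) by omega, pow_add, smul_eq_mul]
  ring

theorem C6 : C6_stmt := by
  intro m hm
  have h1 := C6_pow 1 m le_rfl
  have h2 := C6_pow 2 m (by norm_num)
  have h3 := C6_pow 3 m (by norm_num)
  have h4 := C6_pow 4 m (by norm_num)
  simp only [pow_one] at h1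
  refine ⟨?_, h2, h3, h4⟩
  rw [show (fun ζ => Kb ζ) = Kb from rfl] at h1
  rw [h1]
  simp

end BB
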